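import Pool.Agent.Run7.h367.SP.Dec

/-!
# The local version of Hadwiger's conjecture for strong products

The strong product `G ⊠ H` has the vertex set `V(G) × V(H)`; distinct vertices `(a, b)`, `(a', b')` are
adjacent if and only if (`a = a'` or `a a'` is an edge of `G`) and (`b = b'` or `b b'` is an edge of `H`).
We call `H` `N`-wide if it contains a path with `N` vertices, or a set `Q` that induces a connected
subgraph and has at least `N` neighbours outside of `Q`; every connected graph with at least `N²` vertices
is `N`-wide.

**Theorem.**  Let `G` be any graph, `c` the smallest chromatic number of a subgraph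
`G[N[v]]`, and let `H` be a `2c`-wide graph (for instance, a connected graph with at least `4 c²`
vertices) with a vertex `w` that is contained in no triangle.  Then Q1 holds for `G ⊠ H`: if it has no
minor `K_{t+1}`, then for some vertex `v` of `G` the closed neighbourhood of `(v, w)` is
`t`-colourable.  The same holds if `w` is a vertex of `H` with an `(r + 2)`-colourable closed neighbourhood,
where `H` is connected, has a minor `K_{r c + 2}` and at least `(r c + 2) 2 c ((r + 2) c + 1)` vertices.

The chromatic numbers of `G ⊠ H` and of `H` may be arbitrarily large in comparison with those of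
closed neighbourhoods; so in general it is not known whether these graphs satisfy Hadwiger's conjecture.

Proof.  All closed neighbourhoods of `G` have chromatic number at least `c`, so `G` is not `(c-1)`-colourable,
and the strong product of `G` with a `2c`-wide graph has a minor `K_{2c}` (see StrongProducts of
MP_b47bfb_co), the strong product with a large connected graph that has a minor `K_{h+2}` has a minor `K_{2c+h}`.
The closed neighbourhood of `(v, w)` is the strong product of the closed neighbourhoods of `v` and `w`, so
it is `c (r + 2)`-colourable for some `v`.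
-/

set_option autoImplicit false

namespace Pool.Agent.Results.MP_7b68b9_co.StrongProducts

/-- `K_m` is a minor of `G`: there are `m` pairwise disjoint vertex sets, each inducing a connected
subgraph, with an edge of `G` between any two of them. -/
def HasCliqueMinor {V : Type} (G : SimpleGraph V) (m : ℕ) : Prop :=
  ∃ B : Fin m → Set V,
    (∀ i, (G.induce (B i)).Connected) ∧
    (∀ i j, i ≠ j → Disjoint (B i) (B j)) ∧
    (∀ i j, i ≠ j → ∃ u ∈ B i, ∃ w ∈ B j, G.Adj u w)

/-- The strong product of `G` and `H`. -/
def strongProduct {V W : Type} (G : SimpleGraph V) (H : SimpleGraph W) :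
    SimpleGraph (V × W) where
  Adj x y := x ≠ y ∧ (x.1 = y.1 ∨ G.Adj x.1 y.1) ∧ (x.2 = y.2 ∨ H.Adj x.2 y.2)
  symm := ⟨fun _ _ h => ⟨h.1.symm, h.2.1.imp Eq.symm SimpleGraph.Adj.symm,
    h.2.2.imp Eq.symm SimpleGraph.Adj.symm⟩⟩
  loopless := ⟨fun _ h => h.1 rfl⟩

/-- `W` has at least `N` elements. -/
def AtLeast (W : Type) (N : ℕ) : Prop := ∃ f : Fin N → W, Function.Injective f

/-- `H` contains a path with `N` vertices, or a set `Q` that induces a connected subgraph and
`N` different vertices that do not belong to `Q` and are adjacent to vertices of `Q`. -/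
def Wide {W : Type} (H : SimpleGraph W) (N : ℕ) : Prop :=
  (∃ p : Fin N → W, Function.Injective p ∧ ∀ i j : Fin N, i.1 + 1 = j.1 → H.Adj (p i) (p j)) ∨
  ∃ (Q : Set W) (ν : Fin N → W), (H.induce Q).Connected ∧ Function.Injective ν ∧
    ∀ i, ν i ∉ Q ∧ ∃ q ∈ Q, H.Adj q (ν i)

/-- The closed neighbourhood of `v` is `c`-colourable. -/
def LocallyColorable {V : Type} (G : SimpleGraph V) (v : V) (c : ℕ) : Prop :=
  (G.induce (insert v (G.neighborSet v))).Colorable c

theorem result :
    (∀ (c t : ℕ) (V W : Type) (G : SimpleGraph V) (H : SimpleGraph W) (w : W),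
      (∃ v, LocallyColorable G v c) → Wide H (2 * c) →
      (∀ a b, H.Adj w a → H.Adj w b → ¬ H.Adj a b) →
      ¬ HasCliqueMinor (strongProduct G H) (t + 1) →
      ∃ v : V, LocallyColorable (strongProduct G H) (v, w) t) ∧
    (∀ (N : ℕ) (W : Type) (H : SimpleGraph W), H.Connected → AtLeast W (N * N) → Wide H N) ∧
    (∀ (c r t : ℕ) (V W : Type) (G : SimpleGraph V) (H : SimpleGraph W) (w : W),
      (∃ v, LocallyColorable G v c) → H.Connected → HasCliqueMinor H (r * c + 2) →
      AtLeast W ((r * c + 2) * (2 * c * ((r + 2) * c + 1))) →
      LocallyColorable H w (r + 2) →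
      ¬ HasCliqueMinor (strongProduct G H) (t + 1) →
      ∃ v : V, LocallyColorable (strongProduct G H) (v, w) t) := by
  refine ⟨?_, ?_, ?_⟩
  · intro c t V W G H w hG hH hw ht
    classical
    refine Pool.Agent.Run7.h367.SP.local_strong (r := 0) hG (Or.inl ⟨rfl, hH⟩) w ?_ ht
    refine ⟨SimpleGraph.Coloring.mk (fun z => if z.1 = w then 0 else 1) ?_⟩
    rintro ⟨a, ha⟩ ⟨b, hb⟩ hab h
    have hab' : H.Adj a b := hab
    by_cases h1 : a = w
    · by_cases h2 : b = w
      · rw [h1, h2] at hab'
        exact H.loopless.irrefl _ hab'
      · simp [h1, h2] at h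
    · by_cases h2 : b = w
      · simp [h1, h2] at h
      · have ha' : H.Adj w a := by
          rcases ha with ha | ha
          · exact absurd ha h1
          · exact ha
        have hb' : H.Adj w b := by
          rcases hb with hb | hb
          · exact absurd hb h2
          · exact hb
        exact hw a b ha' hb' hab'
  · intro N W H hH hf
    exact Pool.Agent.Run7.h367.SP.wide_of_large hH hf
  · intro c r t V W G H w hG h1 h2 h3 hw ht
    exact Pool.Agent.Run7.h367.SP.local_strong hG (Or.inr ⟨h1, h2, h3⟩) w hw ht

end Pool.Agent.Results.MP_7b68b9_co.StrongProducts
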